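import Pool.Agent.X67.QS.Fam2

set_option autoImplicit false

namespace Pool.Agent.Results.MP_bf4c7f_nt.EndpointsAtResidues

open Finset Polynomial
open Pool.Agent.X67.QS

/-- For the least residue `n ≥ 0` of `x` and all `j < J`, no prime is within distance `Z` of
`(n + j)²` or of `(n + j)(n + j + 1)`. (`J = 2`: all the endpoints `m² - m`, `m²`, `m² + m` of
Oppermann's intervals for `m = n + 1`.) -/
def Endpoints (p : ℕ) (J Z : ℕ) (x : ZMod p) : Prop :=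
  ∀ j : ℕ, j < J → ∀ q : ℕ, q.Prime →
    (Z : ℝ) < |(q : ℝ) - ((x.val : ℝ) + j) ^ 2| ∧
    (Z : ℝ) < |(q : ℝ) - ((x.val : ℝ) + j) * ((x.val : ℝ) + j + 1)|

/-- **The endpoints of Oppermann's intervals in long prime gaps, at structured residues modulo a
prime.** Let `k` and `ε > 0`. There are `c > 0` and `p₀` such that for all primes `p ≥ p₀` and all
`J ≥ 1` and `Z ≥ log p` with `J Z ≤ c log p (log₂ p)² log₄ p / (log₃ p)²` the following holds.

(1) If `x i`, `i` in a nonempty finite set `s`, are residues modulo `p` whose exponential sums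
satisfy `|∑ e(h x i / p)| ≤ |s| p ^ (-ε)` for all `h ≠ 0`, then `Endpoints p J Z (x i)` for some `i`.

(2) Let `F` be a polynomial of degree between `1` and `k` over the field with `p` elements, and let
`S` and `B` be sets of residues with `|B| ≤ |S|` and `|S| |B| ≥ p ^ (1 + ε)`, such that every `b` in
`B` is nonzero and all but `p ^ (-ε) |S|` elements of `S` lie in `b S`. Then
`Endpoints p J Z (F(x))` for some `x` in `S`.

(3) The same holds for `S = {a, a θ, …, a θ ^ (M - 1)}`, `a ≠ 0`, when `p ^ (1/2 + ε) ≤ M` and `M`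
is at most the order of `θ` modulo `p`.

(4) If the order `T` of `θ` is at least `p ^ (3/8 + ε)` then, for all `b` and all `a ≠ 0`,
`Endpoints p J Z (b + a θ ^ l)` for some `l < T`. -/
theorem result (k : ℕ) (ε : ℝ) (hε : 0 < ε) : ∃ c : ℝ, 0 < c ∧ ∃ p₀ : ℕ,
    ∀ (p : ℕ) [Fact p.Prime], p₀ ≤ p → ∀ J Z : ℕ, 1 ≤ J → Real.log p ≤ Z →
    (J : ℝ) * Z ≤ c * (Real.log p * (Real.log (Real.log p)) ^ 2 *
      Real.log (Real.log (Real.log (Real.log p))) / (Real.log (Real.log (Real.log p))) ^ 2) →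
    (∀ (ι : Type) (s : Finset ι) (x : ι → ZMod p), s.Nonempty →
      (∀ h : ZMod p, h ≠ 0 →
        ‖∑ i ∈ s, (ZMod.stdAddChar (h * x i) : ℂ)‖ ≤ s.card * (p : ℝ) ^ (-ε)) →
      ∃ i ∈ s, Endpoints p J Z (x i)) ∧
    (∀ (S B : Finset (ZMod p)) (F : (ZMod p)[X]), 1 ≤ F.natDegree → F.natDegree ≤ k →
      B.card ≤ S.card → (p : ℝ) ^ (1 + ε) ≤ S.card * B.card →
      (∀ b ∈ B, b ≠ 0 ∧
        ((S \ S.image (fun x => b * x)).card : ℝ) ≤ (p : ℝ) ^ (-ε) * S.card) →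
      ∃ x ∈ S, Endpoints p J Z (F.eval x)) ∧
    (∀ (θ a : ZMod p) (M : ℕ) (F : (ZMod p)[X]), 1 ≤ F.natDegree → F.natDegree ≤ k →
      θ ≠ 0 → a ≠ 0 → M ≤ orderOf θ → (p : ℝ) ^ (1 / 2 + ε) ≤ M →
      ∃ l : ℕ, l < M ∧ Endpoints p J Z (F.eval (a * θ ^ l))) ∧
    (∀ θ a b : ZMod p, θ ≠ 0 → a ≠ 0 → (p : ℝ) ^ (3 / 8 + ε) ≤ orderOf θ →
      ∃ l : ℕ, l < orderOf θ ∧ Endpoints p J Z (b + a * θ ^ l)) := by
  obtain ⟨κ₀, hκ₀, p₀, h₀⟩ := critQP ε hε
  obtain ⟨κ₁, hκ₁, p₁, h₁⟩ := almost_inv_qs k ε hε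
  obtain ⟨κ₂, hκ₂, p₂, h₂⟩ := gp_qs k ε hε
  obtain ⟨κ₃, hκ₃, p₃, h₃⟩ := sub_qs ε hε
  set κ := min (min κ₀ κ₁) (min κ₂ κ₃) with hκdef
  have hκ : 0 < κ := lt_min (lt_min hκ₀ hκ₁) (lt_min hκ₂ hκ₃)
  have k0 : κ ≤ κ₀ := (min_le_left _ _).trans (min_le_left _ _)
  have k1 : κ ≤ κ₁ := (min_le_left _ _).trans (min_le_right _ _)
  have k2 : κ ≤ κ₂ := (min_le_right _ _).trans (min_le_left _ _)
  have k3 : κ ≤ κ₃ := (min_le_right _ _).trans (min_le_right _ _)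
  have ev : ∀ᶠ p : ℕ in Filter.atTop, 0 ≤ Real.log (Real.log (Real.log (Real.log p))) ∧
      0 ≤ Real.log (p : ℝ) := by
    have t1 : Filter.Tendsto (fun p : ℕ => Real.log (p : ℝ)) Filter.atTop Filter.atTop :=
      Real.tendsto_log_atTop.comp tendsto_natCast_atTop_atTop
    have t2 : Filter.Tendsto (fun p : ℕ => Real.log (Real.log (Real.log (Real.log (p : ℝ)))))
        Filter.atTop Filter.atTop :=
      Real.tendsto_log_atTop.comp (Real.tendsto_log_atTop.comp (Real.tendsto_log_atTop.comp t1))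
    exact (t2.eventually_ge_atTop 0).and (t1.eventually_ge_atTop 0)
  obtain ⟨p₄, hp₄⟩ := Filter.eventually_atTop.1 ev
  refine ⟨κ, hκ, max (max p₀ p₄) (max p₁ (max p₂ p₃)), ?_⟩
  intro p _ hp J Z hJ hZ hJZ
  have q0 : p₀ ≤ p := ((le_max_left _ _).trans (le_max_left _ _)).trans hp
  have q4 : p₄ ≤ p := ((le_max_right _ _).trans (le_max_left _ _)).trans hp
  have q1 : p₁ ≤ p := ((le_max_left _ _).trans (le_max_right _ _)).trans hp
  have q2 : p₂ ≤ p := ((le_max_left _ _).trans ((le_max_right _ _).trans (le_max_right _ _))).trans hp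
  have q3 : p₃ ≤ p := ((le_max_right _ _).trans ((le_max_right _ _).trans (le_max_right _ _))).trans hp
  obtain ⟨l4, l1⟩ := hp₄ p q4
  set f : ℝ := Real.log p * (Real.log (Real.log p)) ^ 2 *
      Real.log (Real.log (Real.log (Real.log p))) / (Real.log (Real.log (Real.log p))) ^ 2 with hf
  have hf0 : 0 ≤ f := by
    rw [hf]
    positivity
  have hff : f = Pool.Agent.H256R2.SC.ff p := rfl
  have r : ∀ κ' : ℝ, κ ≤ κ' → (J : ℝ) * Z ≤ κ' * Pool.Agent.H256R2.SC.ff p := by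
    intro κ' hκ'
    rw [← hff]
    exact hJZ.trans (mul_le_mul_of_nonneg_right hκ' hf0)
  refine ⟨?_, ?_, ?_, ?_⟩
  · intro ι s x hs hx
    exact h₀ p q0 ι s x hs hx J Z hJ hZ (r _ k0)
  · intro S B F hF1 hF hle hSB hB
    exact h₁ p q1 S B F hF1 hF hSB hle hB J Z hJ hZ (r _ k1)
  · intro θ a M F hF1 hF hθ ha hM hMp
    exact h₂ p q2 θ a M F hθ ha hM hMp hF1 hF J Z hJ hZ (r _ k2)
  · intro θ a b hθ ha hT
    exact h₃ p q3 θ a b hθ ha hT J Z hJ hZ (r _ k3)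

end Pool.Agent.Results.MP_bf4c7f_nt.EndpointsAtResidues
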