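import Pool.Agent.X119.Mil
import Pool.Agent.H426R3.SQ.Q4

/-!
# The end points of Oppermann's intervals in long prime gaps, along whole sequences `N_n = ⌊θ ^ (c ^ n)⌋`

Oppermann's conjecture: `(x² - x, x²)` and `(x², x² + x)` contain primes for all `x > 1`. Let `f` be the record size of
prime gaps and `J` a function with `J(m) ≤ 2 J(m')` for `m ≤ 4 m'`, `m' ≤ 4 m` and `J(m) log m ≤ κ f(m)`, for instance a
constant or `(log₂ m) ^ (2 - δ)`. For every real `c > 1` the `θ > 1` such that for all large `n` and each of the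
`J(N_n)` consecutive integers `x = N_n, N_n + 1, …` neither `x²` nor `x² + x` has a prime within `κ f(N_n) / J(N_n)`
have Hausdorff dimension at least `s(κ)` in each open set that meets `(1, ∞)`, with `s(κ) → 1` as `κ → 0`; if
`J(m) log m = o(f(m))`, then with `κ` depending on `θ` the dimension is `1`.

The input for one number is `Pool.Agent.H426R3.SQ.squares_pronics_main` of the starting library; the Cantor set
argument is `Pool.Agent.X10.ML` (helper10).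
-/

set_option autoImplicit false

open Filter

namespace Pool.Agent.Results.MP_bf4c7f_nt.MillsSequences

/-- The record scale `f(x) = log x (log₂ x)² log₄ x / (log₃ x)²` (iterated natural logarithms). -/
noncomputable def f (x : ℝ) : ℝ :=
  Real.log x * (Real.log (Real.log x)) ^ 2 * Real.log (Real.log (Real.log (Real.log x))) /
    (Real.log (Real.log (Real.log x))) ^ 2

/-- `J ≥ 1` is of regular growth and at most `κ f(m) / log m`. -/
def Admissible (κ : ℝ) (J : ℕ → ℕ) : Prop :=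
  (∀ m : ℕ, 1 ≤ J m) ∧ (∀ m m' : ℕ, m ≤ 4 * m' → m' ≤ 4 * m → J m ≤ 2 * J m') ∧
    ∀ᶠ m : ℕ in atTop, (J m : ℝ) * Real.log m ≤ κ * f m

/-- For each of the `J m` integers `x = m, …, m + J m - 1` no prime is within `κ f(m) / J m` of `x ^ 2` or of
`x (x + 1)`. -/
def PrimeFree (κ : ℝ) (J : ℕ → ℕ) (m : ℕ) : Prop :=
  ∀ j : ℕ, j < J m → ∀ q : ℕ, q.Prime →
    κ * f m / J m < |(q : ℝ) - ((m : ℝ) + j) ^ 2| ∧
    κ * f m / J m < |(q : ℝ) - ((m : ℝ) + j) * ((m : ℝ) + j + 1)|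

lemma core (c : ℝ) (hc : 1 < c) (a : ℝ) (ha : 0 < a) (ha1 : a ≤ 1 / 2) : ∃ κ : ℝ, 0 < κ ∧
    ∀ J : ℕ → ℕ, Admissible κ J → ∀ ϑ : ℝ, 1 < ϑ → ∃ n₁ : ℕ, ∀ n : ℕ, n₁ ≤ n → ∀ X : ℝ, ϑ ^ (c ^ n) ≤ X →
      ∀ z : ℕ, X ≤ z → (z : ℝ) ≤ 3 * X → ∃ m, PrimeFree κ J m ∧ z < m ∧ (m : ℝ) ≤ z + X ^ a := by
  obtain ⟨c₀, hc₀, Y₀, h⟩ := Pool.Agent.H426R3.SQ.squares_pronics_main
  obtain ⟨X₁, hX₁4, hX₁⟩ := Pool.Agent.X119.Mil.scale a ha ha1
  obtain ⟨X₂, hX₂⟩ := eventually_atTop.1 ((tendsto_rpow_atTop ha).eventually_ge_atTop Y₀)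
  obtain ⟨κ, hκ⟩ : ∃ κ : ℝ, κ = c₀ * (a / 2 / 8) / 8 := ⟨_, rfl⟩
  have hκ0 : 0 < κ := by rw [hκ]; positivity
  refine ⟨κ, hκ0, fun J hJ ϑ hϑ => ?_⟩
  obtain ⟨hJ1, hJ2, hJ3⟩ := hJ
  obtain ⟨m₀, hm₀⟩ := eventually_atTop.1 hJ3
  obtain ⟨n₁, hn₁⟩ := eventually_atTop.1
    ((Pool.Agent.X119.Mil.tendsto_pow c ϑ hc hϑ).eventually_ge_atTop (max (max X₁ X₂) m₀))
  refine ⟨n₁, fun n hn X hX' z hz1 hz2 => ?_⟩
  have hX := (hn₁ n hn).trans hX'
  have hX1 : X₁ ≤ X := ((le_max_left _ _).trans (le_max_left _ _)).trans hX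
  have hX4 : 4 ≤ X := hX₁4.trans hX1
  have hY : Y₀ ≤ X ^ a := hX₂ X (((le_max_right _ _).trans (le_max_left _ _)).trans hX)
  have hYX : X ^ a ≤ X := (hX₁ X hX1 X le_rfl (by linarith)).1
  have hzm₀ : m₀ ≤ z := by
    have : (m₀ : ℝ) ≤ z := ((le_max_right _ _).trans hX).trans hz1
    exact_mod_cast this
  obtain ⟨-, k2, k3, k4, k5⟩ := hX₁ X hX1 z hz1 (by linarith)
  have hJz := hm₀ z hzm₀
  have hJz1 : (1 : ℝ) ≤ J z := by exact_mod_cast hJ1 z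
  have hz0 : (0 : ℝ) < Real.log z := Real.log_pos (by linarith)
  obtain ⟨R, hR⟩ : ∃ R : ℝ, R = c₀ * Pool.Agent.X119.Mil.rec (X ^ a) := ⟨_, rfl⟩
  have hR1 : 8 * (κ * f z) ≤ R := by
    rw [hR, hκ]
    have := mul_le_mul_of_nonneg_left k4 hc₀.le
    calc 8 * (c₀ * (a / 2 / 8) / 8 * f z) = c₀ * (a / 2 / 8 * f z) := by ring
      _ ≤ _ := this
  have hR0 : 0 < R := by rw [hR]; exact mul_pos hc₀ k5
  -- `Z`
  obtain ⟨Z, hZ⟩ : ∃ Z : ℕ, Z = ⌊R / (2 * J z)⌋₊ := ⟨_, rfl⟩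
  have hZ1 : (Z : ℝ) ≤ R / (2 * J z) := by rw [hZ]; exact Nat.floor_le (by positivity)
  have hZ2 : R / (2 * J z) < Z + 1 := by rw [hZ]; exact Nat.lt_floor_add_one _
  have hlow : 4 * Real.log z ≤ R / (2 * J z) := by
    rw [le_div_iff₀ (by positivity)]
    have : 8 * (J z * Real.log z) ≤ 8 * (κ * f z) := by linarith
    nlinarith
  have hz4 : (1 : ℝ) ≤ Real.log z := by
    have e1 : Real.exp 1 ≤ z := by
      have := Real.exp_one_lt_d9
      linarith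
    have := Real.log_le_log (Real.exp_pos 1) e1
    rwa [Real.log_exp] at this
  obtain ⟨m, hm1, hm2, hm3⟩ := h (X ^ a) hY z (hYX.trans hz1) (2 * J z) Z
    (by have := hJ1 z; omega) (by linarith) (by
      push_cast
      have e1 : 2 * (J z : ℝ) * Z ≤ R := by
        rw [le_div_iff₀ (by positivity)] at hZ1
        linarith
      have e2 : R = c₀ * Pool.Agent.H426R3.SQ.ff (X ^ a) := by
        rw [hR]; rfl
      rw [← e2]; exact e1)
  have hm1r : (z : ℝ) < m := by exact_mod_cast hm1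
  have hm2r : (m : ℝ) ≤ 4 * X := by linarith
  obtain ⟨-, -, -, g4, -⟩ := hX₁ X hX1 m (by linarith) hm2r
  have hJm1 : (1 : ℝ) ≤ J m := by exact_mod_cast hJ1 m
  have hmz : m ≤ 4 * z := by
    have : (m : ℝ) ≤ 4 * z := by linarith
    exact_mod_cast this
  have hJmz := hJ2 m z hmz (by omega)
  have hJzm := hJ2 z m (by omega) hmz
  have hJzm' : (J z : ℝ) ≤ 2 * J m := by exact_mod_cast hJzm
  have hR2 : 8 * (κ * f m) ≤ R := by
    rw [hR, hκ]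
    have := mul_le_mul_of_nonneg_left g4 hc₀.le
    calc 8 * (c₀ * (a / 2 / 8) / 8 * f m) = c₀ * (a / 2 / 8 * f m) := by ring
      _ ≤ _ := this
  have hfin : κ * f m / J m ≤ Z := by
    have e1 : 1 ≤ 2 * (J m : ℝ) / J z := by
      rw [le_div_iff₀ (by linarith)]
      linarith
    have e2 : κ * f m / J m ≤ R / 8 * (2 / J z) := by
      rw [div_le_iff₀ (by linarith : (0 : ℝ) < J m)]
      calc κ * f m ≤ R / 8 * 1 := by linarith
        _ ≤ R / 8 * (2 * (J m : ℝ) / J z) := mul_le_mul_of_nonneg_left e1 (by linarith)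
        _ = R / 8 * (2 / J z) * J m := by ring
    have e3 : R / 8 * (2 / (J z : ℝ)) = R / (2 * J z) / 2 := by
      rw [div_mul_div_comm, div_div, mul_comm R 2]
      rw [show (8 : ℝ) * (J z : ℝ) = 2 * (2 * (J z) * 2) by ring, mul_div_mul_left _ _ (by norm_num)]
    have e4 : 4 ≤ R / (2 * J z) := by linarith
    rw [e3] at e2
    linarith
  refine ⟨m, fun j hj q hq => ?_, hm1, hm2⟩
  have hj' : j < 2 * J z := lt_of_lt_of_le hj hJmz
  obtain ⟨t1, t2⟩ := hm3 j hj' q hq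
  exact ⟨lt_of_le_of_lt hfin t1, lt_of_le_of_lt hfin t2⟩

/-- End points of the intervals of Oppermann in long prime gaps along sequences. -/
theorem result (c : ℝ) (hc : 1 < c) :
    (∀ s : ℝ, s < 1 → ∃ κ : ℝ, 0 < κ ∧ ∀ J : ℕ → ℕ, Admissible κ J →
      ∀ U : Set ℝ, IsOpen U → (U ∩ Set.Ioi 1).Nonempty →
      ENNReal.ofReal s ≤ dimH {θ : ℝ | θ ∈ U ∧ 1 < θ ∧ ∃ N : ℕ, ∀ n : ℕ, N ≤ n →
        PrimeFree κ J ⌊θ ^ (c ^ n)⌋₊}) ∧
    ∀ J : ℕ → ℕ, (∀ κ : ℝ, 0 < κ → Admissible κ J) →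
      ∀ U : Set ℝ, IsOpen U → (U ∩ Set.Ioi 1).Nonempty →
      dimH {θ : ℝ | θ ∈ U ∧ 1 < θ ∧ ∃ κ : ℝ, 0 < κ ∧ ∃ N : ℕ, ∀ n : ℕ, N ≤ n →
        PrimeFree κ J ⌊θ ^ (c ^ n)⌋₊} = 1 := by
  constructor
  · exact Pool.Agent.X119.Mil.mills (S := ℕ → ℕ) c hc Admissible (fun κ J _ m => PrimeFree κ J m)
      (fun a ha ha1 => core c hc a ha ha1)
  · intro J hJ U hU hne
    refine Pool.Agent.X119.Mil.mills_one (S := ℕ → ℕ) c hc (fun J => ∀ κ : ℝ, 0 < κ → Admissible κ J)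
      (fun κ J _ m => PrimeFree κ J m) ?_ J hJ U hU hne
    intro a ha ha1
    obtain ⟨κ, hκ, h⟩ := core c hc a ha ha1
    exact ⟨κ, hκ, fun J hJ => h J (hJ κ hκ)⟩

end Pool.Agent.Results.MP_bf4c7f_nt.MillsSequences
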