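import Pool.Agent.X273.Run4

/-!
# MP_bf4c7f_nt (Oppermann): the parity of the number of prime factors in Oppermann's and Legendre's intervals

Two adjacent intervals of Oppermann, `(x² - x, x²) ∪ (x², x² + x]` or `(x², x² + x) ∪ (x² + x, (x+1)²)`,
contain an integer with an odd number of prime factors; more generally for the number of the prime
factors in an arbitrary set `P` of primes which contains `2`, `3`, `5` or `7`.

`Pool.Agent.X273.Run.OmegaIn P m` is the number of the prime factors of `m`, counted with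
multiplicity, which belong to `P`; for `P = Set.univ` it is `Ω(m)`.

Method: if a completely multiplicative `f` with values `±1` is `1` on `(N, N + s + 1]`, `4 N ≤ s²`,
then `f(t) = f(t + 1)` unless `(⌊N/t⌋ + 1) (t + 1) > N + s + 1`; the exceptional `t` near `√N` are
the `t` with `t + m = s + R`, `N - R < t m ≤ N` for some `m` and `R ≥ 1`.  If there are none with
`R < q`, where `f(q) = -1`, then `f` is constant on an interval which contains a square and `q` times
a square; otherwise `f` is constant on `(m, t]`, which is a longer interval of the same kind around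
`√N`, and one can descend.
-/

namespace Pool.Agent.Results.MP_bf4c7f_nt.OddParityWindows

open Pool.Agent.X273.Run

lemma omega_zero {P : Set ℕ} {m : ℕ} (h : ∀ p ∈ P, ¬ p ∣ m) : OmegaIn P m = 0 := by
  classical
  unfold OmegaIn
  rw [List.countP_eq_zero]
  intro p hp
  simp only [decide_eq_true_eq]
  intro hP
  exact h p hP (Nat.dvd_of_mem_primeFactorsList hp)

lemma even_of_sg {P : Set ℕ} {m : ℕ} (h : sg P m = 1) : Even (OmegaIn P m) := by
  by_contra hc
  rw [Nat.not_even_iff_odd, ← sg_neg_iff, h] at hc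
  norm_num at hc

lemma ex11 : ∀ m : ℕ, 231 < m → m ≤ 231 + 31 + 1 → Even (OmegaIn ({11, 23} : Set ℕ) m) := by
  intro m h1 h2
  by_cases hA : m = 242
  · apply even_of_sg
    rw [hA, show (242 : ℕ) = 2 * 11 ^ 2 by norm_num, (sg_signFun _).mul_square (by norm_num)
      (by norm_num)]
    unfold sg
    rw [omega_zero]
    · norm_num
    · intro p hp
      rcases hp with h | h
      · rw [h]; norm_num
      · rw [Set.mem_singleton_iff] at h; rw [h]; norm_num
  by_cases hB : m = 253
  · apply even_of_sg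
    rw [hB, show (253 : ℕ) = 11 * 23 by norm_num, (sg_signFun _).mul 11 23 (by norm_num)
      (by norm_num), sg_prime _ (by norm_num) (by simp), sg_prime _ (by norm_num) (by simp)]
    norm_num
  rw [omega_zero]
  · exact Even.zero
  · intro p hp
    rcases hp with h | h
    · rw [h]
      intro hd
      obtain ⟨k, hk⟩ := hd
      omega
    · rw [Set.mem_singleton_iff] at h
      rw [h]
      intro hd
      obtain ⟨k, hk⟩ := hd
      omega

lemma ex2 : ∀ m : ℕ, 8 < m → m ≤ 8 + 6 → Even (OmegaIn ({2, 5, 7} : Set ℕ) m) := by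
  intro m h1 h2
  have hp2 : sg ({2, 5, 7} : Set ℕ) 2 = -1 := sg_prime _ (by norm_num) (by simp)
  have hp5 : sg ({2, 5, 7} : Set ℕ) 5 = -1 := sg_prime _ (by norm_num) (by simp)
  have hp7 : sg ({2, 5, 7} : Set ℕ) 7 = -1 := sg_prime _ (by norm_num) (by simp)
  have hz : ∀ n, ¬ 2 ∣ n → ¬ 5 ∣ n → ¬ 7 ∣ n → OmegaIn ({2, 5, 7} : Set ℕ) n = 0 := by
    intro n a b c
    apply omega_zero
    intro p hp
    rcases hp with h | h | h
    · rw [h]; exact a
    · rw [h]; exact b
    · rw [Set.mem_singleton_iff] at h; rw [h]; exact c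
  have hs := sg_signFun ({2, 5, 7} : Set ℕ)
  interval_cases m
  · rw [hz 9 (by norm_num) (by norm_num) (by norm_num)]; exact Even.zero
  · apply even_of_sg
    rw [show (10 : ℕ) = 2 * 5 by norm_num, hs.mul 2 5 (by norm_num) (by norm_num), hp2, hp5]
    norm_num
  · rw [hz 11 (by norm_num) (by norm_num) (by norm_num)]; exact Even.zero
  · apply even_of_sg
    rw [show (12 : ℕ) = 3 * 2 ^ 2 by norm_num, hs.mul_square (by norm_num) (by norm_num)]
    unfold sg
    rw [hz 3 (by norm_num) (by norm_num) (by norm_num)]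
    norm_num
  · rw [hz 13 (by norm_num) (by norm_num) (by norm_num)]; exact Even.zero
  · apply even_of_sg
    rw [show (14 : ℕ) = 2 * 7 by norm_num, hs.mul 2 7 (by norm_num) (by norm_num), hp2, hp7]
    norm_num

/-- 1. For every set `P` which contains one of `2, 3, 5, 7` and every `x ≥ 3` (every `x ≥ 1` if
`2 ∈ P`, for instance for `Ω`, and every `x ≥ 2` if `3 ∈ P`) there are `m` with `x² - x < m ≤ x² + x`
and `m'` with `x² < m' < (x+1)²` which have an odd number of prime factors in `P`.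
2. More generally, if `f` is completely multiplicative with values `1`, `-1` on the positive
integers and `f` is `-1` at one of `2, 3, 5, 7`, then for all `N ≥ 3` and `s` with `4 N ≤ s²` (for
all `N ≥ 1` if `f` is `-1` at `2` or `3`) `f` takes the value `-1` on `(N, N + s + 1]`.
3. In 2 (and in the corresponding statement for sets of primes) the length `s + 1` cannot be replaced
by `s` (`P = {2, 5, 7}`, `N = 8`, `s = 6`), and `{2, 3, 5, 7}` cannot be replaced by
`{2, 3, 5, 7, 11}` (`P = {11, 23}`, `N = 231`, `s = 31`). -/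
theorem result :
    (∀ (P : Set ℕ) (x : ℕ),
      ((2 ∈ P ∨ 3 ∈ P ∨ 5 ∈ P ∨ 7 ∈ P) ∧ 3 ≤ x) ∨ ((2 ∈ P ∨ (3 ∈ P ∧ 2 ≤ x)) ∧ 1 ≤ x) →
      (∃ m, x ^ 2 - x < m ∧ m ≤ x ^ 2 + x ∧ Odd (OmegaIn P m)) ∧
      (∃ m, x ^ 2 < m ∧ m < (x + 1) ^ 2 ∧ Odd (OmegaIn P m))) ∧
    (∀ m, OmegaIn Set.univ m = ArithmeticFunction.cardFactors m) ∧
    (∀ f : ℕ → ℤ, (∀ a b, 0 < a → 0 < b → f (a * b) = f a * f b) →
      (∀ a, 0 < a → f a = 1 ∨ f a = -1) →
      ∀ N s : ℕ, 4 * N ≤ s ^ 2 →
        ((f 2 = -1 ∨ f 3 = -1 ∨ f 5 = -1 ∨ f 7 = -1) ∧ 3 ≤ N) ∨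
          ((f 2 = -1 ∨ f 3 = -1) ∧ 1 ≤ N) →
        ∃ m, N < m ∧ m ≤ N + s + 1 ∧ f m = -1) ∧
    (4 * 8 ≤ 6 ^ 2 ∧ ∀ m : ℕ, 8 < m → m ≤ 8 + 6 → Even (OmegaIn ({2, 5, 7} : Set ℕ) m)) ∧
    (4 * 231 ≤ 31 ^ 2 ∧
      ∀ m : ℕ, 231 < m → m ≤ 231 + 31 + 1 → Even (OmegaIn ({11, 23} : Set ℕ) m)) := by
  refine ⟨?_, omegaIn_univ, ?_, ⟨by norm_num, ex2⟩, ⟨by norm_num, ex11⟩⟩
  · intro P x h
    have hf := sg_signFun P
    have key : ∀ (hx : 1 ≤ x), (∀ N s, x ^ 2 - x ≤ N → 1 ≤ N → 4 * N ≤ s ^ 2 →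
        ∃ m, N < m ∧ m ≤ N + s + 1 ∧ sg P m = -1) → (x = 1 → sg P 2 = -1 ∨ sg P 1 = -1) →
        (∃ m, x ^ 2 - x < m ∧ m ≤ x ^ 2 + x ∧ Odd (OmegaIn P m)) ∧
        (∃ m, x ^ 2 < m ∧ m < (x + 1) ^ 2 ∧ Odd (OmegaIn P m)) := by
      intro hx h1 h2
      obtain ⟨⟨m, a, b, c⟩, ⟨m', a', b', c'⟩⟩ := intervals hf hx h1 h2
      exact ⟨⟨m, a, b, (sg_neg_iff P m).1 c⟩, ⟨m', a', b', (sg_neg_iff P m').1 c'⟩⟩
    rcases h with ⟨h, hx⟩ | ⟨h, hx⟩
    · apply key (by omega)
      · intro N s hN hN1 hs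
        apply windows_two_three_five_seven hf ?_ ?_ hs
        · rcases h with h | h | h | h
          · exact Or.inl (sg_prime P (by norm_num) h)
          · exact Or.inr (Or.inl (sg_prime P (by norm_num) h))
          · exact Or.inr (Or.inr (Or.inl (sg_prime P (by norm_num) h)))
          · exact Or.inr (Or.inr (Or.inr (sg_prime P (by norm_num) h)))
        · have : x ^ 2 - x = x * (x - 1) := by
            rw [Nat.mul_sub, mul_one, pow_two]
          have : 3 * 2 ≤ x * (x - 1) := Nat.mul_le_mul hx (by omega)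
          omega
      · intro h1; omega
    · apply key hx
      · intro N s hN hN1 hs
        apply windows_two_three hf ?_ hN1 hs
        rcases h with h | ⟨h, _⟩
        · exact Or.inl (sg_prime P (by norm_num) h)
        · exact Or.inr (sg_prime P (by norm_num) h)
      · intro h1
        rcases h with h | ⟨_, h⟩
        · exact Or.inl (sg_prime P (by norm_num) h)
        · omega
  · intro f h1 h2 N s hs h
    have hf : SignFun f := ⟨h1, h2⟩
    rcases h with ⟨h, hN⟩ | ⟨h, hN⟩
    · exact windows_two_three_five_seven hf h hN hs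
    · exact windows_two_three hf h hN hs

end Pool.Agent.Results.MP_bf4c7f_nt.OddParityWindows
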